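import Mathlib
import Pool.Agent.W234.LP.Defs

/-!
Graph LP algebras over an arbitrary coefficient domain `R` with elements `A_1, ..., A_n`.

The combinatorial notions (`StronglyConnected`, `IsEdgeMap`, `IsAcyclicMap`, `IsNested`,
`IsMaximalNested`) are those of `Pool.Agent.W234.LP.Defs`, which treats `R = ℤ[A_1, ..., A_n]`.
-/

namespace Run7.h215.LP

open Finset Pool.Agent.W234.LP
open scoped Classical

noncomputable section

variable {n : ℕ} {R : Type*} [CommRing R] [IsDomain R]

/-- The field of fractions of `R[X_1, ..., X_n]`. -/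
abbrev Fr (n : ℕ) (R : Type*) [CommRing R] : Type _ := FractionRing (MvPolynomial (Fin n) R)

/-- The variable `X_i`, as an element of the field of fractions. -/
def xv (R : Type*) [CommRing R] (i : Fin n) : Fr n R :=
  algebraMap (MvPolynomial (Fin n) R) (Fr n R) (MvPolynomial.X i)

/-- The numerator of `Y_I`: the sum over the acyclic edge maps `f : I → [n]` of the products over
`i ∈ I` of `X_(f i)`, respectively of `A_i` if `f i = i`. -/
def num (Γ : Fin n → Fin n → Prop) (A : Fin n → R) (I : Finset (Fin n)) :
    MvPolynomial (Fin n) R :=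
  ∑ f ∈ univ.filter (fun f : I → Fin n => IsEdgeMap Γ I f ∧ IsAcyclicMap I f),
    ∏ i : I, if f i = i then MvPolynomial.C (A i) else MvPolynomial.X (f i)

/-- The cluster variable `Y_I`: its numerator divided by the product of the `X_i`, `i ∈ I`. -/
def yv (Γ : Fin n → Fin n → Prop) (A : Fin n → R) (I : Finset (Fin n)) : Fr n R :=
  algebraMap (MvPolynomial (Fin n) R) (Fr n R) (num Γ A I) / ∏ i ∈ I, xv R i

/-- The cluster variables: the `X_i` and the `Y_I`, `I` strongly connected. -/
def clusterVars (Γ : Fin n → Fin n → Prop) (A : Fin n → R) : Set (Fr n R) :=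
  {z | (∃ i, z = xv R i) ∨ ∃ I, StronglyConnected Γ I ∧ z = yv Γ A I}

/-- The graph LP algebra: the `R`-subalgebra generated by the cluster variables. -/
def lpAlgebra (Γ : Fin n → Fin n → Prop) (A : Fin n → R) : Subalgebra R (Fr n R) :=
  Algebra.adjoin R (clusterVars Γ A)

/-- The clusters: the `X_i`, `i ∈ L`, together with the `Y_S`, `S ∈ σ`, for a maximal nested
family `σ` whose support is the complement of `L`. -/
def IsClusterSet (Γ : Fin n → Fin n → Prop) (A : Fin n → R) (c : Set (Fr n R)) : Prop :=
  ∃ (L : Finset (Fin n)) (σ : Finset (Finset (Fin n))), IsMaximalNested Γ σ ∧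
    σ.biUnion id = Lᶜ ∧ c = {z | (∃ i ∈ L, z = xv R i) ∨ ∃ S ∈ σ, z = yv Γ A S}

/-- The cluster monomials: the products (with repetitions) of elements of one cluster. -/
def clusterMonomials (Γ : Fin n → Fin n → Prop) (A : Fin n → R) : Set (Fr n R) :=
  {z | ∃ c, IsClusterSet Γ A c ∧ z ∈ Submonoid.closure c}

end

end Run7.h215.LP
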