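import Mathlib
import Pool.Agent.W234.LP.Components

/-!
A multiset with nested support is determined by the numbers of its members containing each point.
-/

set_option linter.all false

namespace Run7.h215.LP

open Finset Pool.Agent.W234.LP
open scoped Classical

noncomputable section

variable {n : ℕ} {Γ : Fin n → Fin n → Prop}

/-- subfamilies of nested families are nested -/
theorem nested_mono {σ τ : Finset (Finset (Fin n))} (h : IsNested Γ σ) (hτ : τ ⊆ σ) :
    IsNested Γ τ :=
  ⟨fun I hI => h.1 I (hτ hI), fun I hI J hJ => h.2.1 I (hτ hI) J (hτ hJ),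
    fun ρ hρ => h.2.2 ρ (hρ.trans hτ)⟩

/-- the members of `σ` that are maximal are the components of the union of `σ` -/
theorem maximal_iff {σ : Finset (Finset (Fin n))} (h : IsNested Γ σ) (C : Finset (Fin n)) :
    (C ∈ σ ∧ ∀ C' ∈ σ, C ⊆ C' → C' = C) ↔ IsComponent Γ (σ.biUnion id) C := by
  set τ : Finset (Finset (Fin n)) := σ.filter (fun C => ∀ C' ∈ σ, C ⊆ C' → C' = C) with hτ
  have hd : ∀ I ∈ τ, ∀ J ∈ τ, I ≠ J → Disjoint I J := by
    intro I hI J hJ hne
    rw [hτ, Finset.mem_filter] at hI hJ
    rcases h.2.1 I hI.1 J hJ.1 with h1 | h1 | h1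
    · exact h1
    · exact absurd (hI.2 J hJ.1 h1).symm hne
    · exact absurd (hJ.2 I hI.1 h1) hne
  have hu : τ.biUnion id = σ.biUnion id := by
    apply Finset.Subset.antisymm
    · exact Finset.biUnion_subset_biUnion_of_subset_left _ (Finset.filter_subset _ _)
    · intro x hx
      obtain ⟨E, hE, hxE⟩ := Finset.mem_biUnion.1 hx
      obtain ⟨M, hM, hmax⟩ := Finset.exists_max_image (σ.filter fun C' => E ⊆ C') Finset.card
        ⟨E, Finset.mem_filter.2 ⟨hE, Finset.Subset.refl _⟩⟩
      rw [Finset.mem_filter] at hM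
      refine Finset.mem_biUnion.2 ⟨M, ?_, hM.2 hxE⟩
      rw [hτ, Finset.mem_filter]
      refine ⟨hM.1, fun C' hC' hsub => ?_⟩
      exact (Finset.eq_of_subset_of_card_le hsub
        (hmax C' (Finset.mem_filter.2 ⟨hC', hM.2.trans hsub⟩))).symm
  have key := h.2.2 τ (Finset.filter_subset _ _) hd C
  rw [hu] at key
  rw [← key, hτ, Finset.mem_filter]

/-- the number of members containing `i` -/
def vct (S : Multiset (Finset (Fin n))) (i : Fin n) : ℕ := Multiset.countP (fun C => i ∈ C) S

theorem union_eq (S : Multiset (Finset (Fin n))) :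
    S.toFinset.biUnion id = univ.filter (fun i => 0 < vct S i) := by
  ext i
  rw [Finset.mem_biUnion, Finset.mem_filter]
  unfold vct
  rw [Multiset.countP_pos]
  constructor
  · rintro ⟨C, hC, hi⟩
    exact ⟨Finset.mem_univ _, C, Multiset.mem_toFinset.1 hC, hi⟩
  · rintro ⟨_, C, hC, hi⟩
    exact ⟨C, Multiset.mem_toFinset.2 hC, hi⟩

/-- **Uniqueness.** -/
theorem multiset_unique : ∀ (k : ℕ) (S S' : Multiset (Finset (Fin n))), Multiset.card S = k →
    IsNested Γ S.toFinset → IsNested Γ S'.toFinset → (∀ i, vct S i = vct S' i) → S = S' := by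
  intro k
  induction k with
  | zero =>
    intro S S' hk hS hS' hv
    have h0 : S = 0 := Multiset.card_eq_zero.1 hk
    subst h0
    symm
    rw [Multiset.eq_zero_iff_forall_notMem]
    intro C hC
    obtain ⟨x, hx⟩ := (hS'.1 C (Multiset.mem_toFinset.2 hC)).1
    have h1 : 0 < vct S' x := by
      unfold vct
      rw [Multiset.countP_pos]
      exact ⟨C, hC, hx⟩
    rw [← hv x] at h1
    simp [vct] at h1
  | succ k ih =>
    intro S S' hk hS hS' hv
    have hne : S.toFinset.Nonempty := by
      rw [Multiset.toFinset_nonempty]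
      rintro rfl
      simp at hk
    obtain ⟨C, hC, hmax⟩ := Finset.exists_max_image S.toFinset Finset.card hne
    have hu : S.toFinset.biUnion id = S'.toFinset.biUnion id := by
      rw [union_eq, union_eq]
      simp only [hv]
    have h1 : IsComponent Γ (S.toFinset.biUnion id) C :=
      (maximal_iff hS C).1 ⟨hC, fun C' hC' hsub =>
        (Finset.eq_of_subset_of_card_le hsub (hmax C' hC')).symm⟩
    rw [hu] at h1
    have hC' : C ∈ S' := Multiset.mem_toFinset.1 ((maximal_iff hS' C).2 h1).1
    have hC0 : C ∈ S := Multiset.mem_toFinset.1 hC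
    obtain ⟨T, rfl⟩ := Multiset.exists_cons_of_mem hC0
    obtain ⟨T', rfl⟩ := Multiset.exists_cons_of_mem hC'
    have hT : IsNested Γ T.toFinset := nested_mono hS (by
      intro E hE
      rw [Multiset.mem_toFinset] at hE ⊢
      exact Multiset.mem_cons_of_mem hE)
    have hT' : IsNested Γ T'.toFinset := nested_mono hS' (by
      intro E hE
      rw [Multiset.mem_toFinset] at hE ⊢
      exact Multiset.mem_cons_of_mem hE)
    have hcard : Multiset.card T = k := by
      rw [Multiset.card_cons] at hk; omega
    have hvT : ∀ i, vct T i = vct T' i := by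
      intro i
      have := hv i
      unfold vct at this ⊢
      rw [Multiset.countP_cons, Multiset.countP_cons] at this
      omega
    rw [ih T T' hcard hT hT' hvT]

end

end Run7.h215.LP
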