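import Mathlib
import Pool.Agent.Run7.h215.LP.Defs
import Pool.Agent.Run7.h215.LP.Nest
import Pool.Agent.W234.LP.Tree

/-!
Cluster monomials of graph LP algebras: linear independence and spanning.
-/

set_option linter.all false

namespace Run7.h215.LP

open Finset Pool.Agent.W234.LP
open scoped Classical

noncomputable section

variable {n : ℕ} {R : Type*} [CommRing R] [IsDomain R]

/-! ### Monomials -/

/-- the monomial of a multiset of indices -/
def mp (R : Type*) [CommRing R] (a : Multiset (Fin n)) : MvPolynomial (Fin n) R :=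
  (a.map MvPolynomial.X).prod

theorem mp_cons (i : Fin n) (a : Multiset (Fin n)) :
    mp R (i ::ₘ a) = MvPolynomial.X i * mp R a := by
  simp [mp]

theorem mp_add (a b : Multiset (Fin n)) : mp R (a + b) = mp R a * mp R b := by
  simp [mp]

theorem mp_eq (a : Multiset (Fin n)) :
    mp R a = MvPolynomial.monomial (Multiset.toFinsupp a) 1 := by
  induction a using Multiset.induction_on with
  | empty => simp [mp]
  | cons i a ih =>
    rw [mp_cons, ih, ← Multiset.singleton_add, map_add, Multiset.toFinsupp_singleton,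
      MvPolynomial.X, MvPolynomial.monomial_mul, one_mul]

theorem map_mp (a : Multiset (Fin n)) :
    algebraMap (MvPolynomial (Fin n) R) (Fr n R) (mp R a) = (a.map (xv R)).prod := by
  rw [mp, map_multiset_prod, Multiset.map_map]
  rfl

theorem mp_ne_zero (a : Multiset (Fin n)) : mp R a ≠ 0 := by
  rw [mp_eq]
  simp

theorem xv_ne_zero (i : Fin n) : xv R i ≠ 0 := by
  rw [xv, Ne, IsFractionRing.to_map_eq_zero_iff]
  exact MvPolynomial.X_ne_zero i

/-! ### The numerators -/

theorem constantCoeff_num (Γ : Fin n → Fin n → Prop) (A : Fin n → R) (I : Finset (Fin n)) :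
    MvPolynomial.constantCoeff (num Γ A I) = ∏ i ∈ I, A i := by
  unfold num
  rw [map_sum, Finset.sum_eq_single (fun i : I => (i : Fin n))]
  · rw [map_prod, ← Finset.prod_coe_sort I A]
    apply Finset.prod_congr rfl
    intro i _
    simp
  · intro f _ hne
    rw [map_prod]
    obtain ⟨i, hi⟩ : ∃ i : I, f i ≠ i := by
      by_contra hcon
      push Not at hcon
      exact hne (funext hcon)
    apply Finset.prod_eq_zero (Finset.mem_univ i)
    rw [if_neg hi, MvPolynomial.constantCoeff_X]
  · intro hmem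
    exfalso
    apply hmem
    rw [Finset.mem_filter]
    refine ⟨Finset.mem_univ _, fun i => Or.inl rfl, ?_⟩
    intro a ha
    obtain ⟨d, hd, _⟩ := Relation.TransGen.head'_iff.1 ha
    obtain ⟨hne, h, e⟩ := hd
    exact hne e

/-- the elements `y_i` -/
def yy (Γ : Fin n → Fin n → Prop) (A : Fin n → R) (i : Fin n) : Fr n R :=
  (algebraMap R (Fr n R) (A i) + ∑ j ∈ univ.filter (fun j => Γ i j), xv R j) / xv R i

theorem yy_mul (Γ : Fin n → Fin n → Prop) (A : Fin n → R) (i : Fin n) :
    yy Γ A i * xv R i =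
      algebraMap R (Fr n R) (A i) + ∑ j ∈ univ.filter (fun j => Γ i j), xv R j := by
  rw [yy, div_mul_cancel₀ _ (xv_ne_zero i)]

theorem yv_eq (Γ : Fin n → Fin n → Prop) (hΓ : ∀ i, ¬ Γ i i) (A : Fin n → R)
    (I : Finset (Fin n)) : yv Γ A I = D (yy Γ A) Γ I := by
  rw [tree (xv R) (fun i => algebraMap R (Fr n R) (A i)) (yy Γ A) Γ hΓ xv_ne_zero (yy_mul Γ A) I,
    yv]
  congr 1
  unfold num
  rw [map_sum]
  refine Finset.sum_congr rfl fun f _ => ?_
  rw [map_prod]
  refine Finset.prod_congr rfl fun i _ => ?_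
  by_cases h : f i = i
  · rw [if_pos h, if_pos h, IsScalarTower.algebraMap_apply R (MvPolynomial (Fin n) R) (Fr n R),
      MvPolynomial.algebraMap_eq]
  · rw [if_neg h, if_neg h]
    rfl

/-- the denominators -/
def bd (S : Multiset (Finset (Fin n))) : Multiset (Fin n) := S.bind Finset.val

theorem count_bd (S : Multiset (Finset (Fin n))) (i : Fin n) : (bd S).count i = vct S i := by
  induction S using Multiset.induction_on with
  | empty => simp [bd, vct]
  | cons C S ih =>
    have h1 : bd (C ::ₘ S) = C.val + bd S := by simp [bd]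
    rw [h1, Multiset.count_add, ih]
    unfold vct
    rw [Multiset.countP_cons, add_comm]
    congr 1
    by_cases h : i ∈ C
    · rw [if_pos h]
      exact Multiset.count_eq_one_of_mem C.nodup h
    · rw [if_neg h]
      exact Multiset.count_eq_zero_of_notMem h

theorem prod_yv (Γ : Fin n → Fin n → Prop) (A : Fin n → R) (S : Multiset (Finset (Fin n))) :
    (S.map (yv Γ A)).prod * algebraMap (MvPolynomial (Fin n) R) (Fr n R) (mp R (bd S)) =
      algebraMap (MvPolynomial (Fin n) R) (Fr n R) ((S.map (num Γ A)).prod) := by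
  induction S using Multiset.induction_on with
  | empty => simp [bd, mp]
  | cons C S ih =>
    have h1 : bd (C ::ₘ S) = C.val + bd S := by simp [bd]
    rw [h1, mp_add, map_mul, Multiset.map_cons, Multiset.prod_cons, Multiset.map_cons,
      Multiset.prod_cons, map_mul, ← ih]
    have h2 : yv Γ A C * algebraMap (MvPolynomial (Fin n) R) (Fr n R) (mp R C.val) =
        algebraMap (MvPolynomial (Fin n) R) (Fr n R) (num Γ A C) := by
      rw [map_mp, yv]
      have h3 : (C.val.map (xv R)).prod = ∏ i ∈ C, xv R i := rfl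
      rw [h3]
      exact div_mul_cancel₀ _ (Finset.prod_ne_zero_iff.2 fun i _ => xv_ne_zero i)
    rw [← h2]
    ring

/-! ### The shape of the cluster monomials -/

theorem data_of {Γ : Fin n → Fin n → Prop} {A : Fin n → R} {z : Fr n R}
    (hz : z ∈ clusterMonomials Γ A) :
    ∃ (a : Multiset (Fin n)) (S : Multiset (Finset (Fin n))), IsNested Γ S.toFinset ∧
      (∀ i ∈ a, ∀ C ∈ S, i ∉ C) ∧ z = (a.map (xv R)).prod * (S.map (yv Γ A)).prod := by
  obtain ⟨c, ⟨L, σ, hσ, hL, rfl⟩, hz⟩ := hz
  have key : ∃ (a : Multiset (Fin n)) (S : Multiset (Finset (Fin n))), (∀ i ∈ a, i ∈ L) ∧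
      (∀ C ∈ S, C ∈ σ) ∧ z = (a.map (xv R)).prod * (S.map (yv Γ A)).prod := by
    induction hz using Submonoid.closure_induction with
    | mem x hx =>
      rcases hx with ⟨i, hi, rfl⟩ | ⟨C, hC, rfl⟩
      · exact ⟨{i}, 0, by simp [hi], by simp, by simp⟩
      · exact ⟨0, {C}, by simp, by simp [hC], by simp⟩
    | one => exact ⟨0, 0, by simp, by simp, by simp⟩
    | mul x w _ _ hx hw =>
      obtain ⟨a, S, h1, h2, rfl⟩ := hx
      obtain ⟨a', S', h1', h2', rfl⟩ := hw
      refine ⟨a + a', S + S', ?_, ?_, ?_⟩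
      · intro i hi
        rcases Multiset.mem_add.1 hi with h | h
        · exact h1 i h
        · exact h1' i h
      · intro C hC
        rcases Multiset.mem_add.1 hC with h | h
        · exact h2 C h
        · exact h2' C h
      · simp only [Multiset.map_add, Multiset.prod_add]
        ring
  obtain ⟨a, S, h1, h2, h3⟩ := key
  refine ⟨a, S, nested_mono hσ.1 fun C hC => h2 C (Multiset.mem_toFinset.1 hC), ?_, h3⟩
  intro i hi C hC hiC
  have h4 : i ∈ σ.biUnion id := Finset.mem_biUnion.2 ⟨C, h2 C hC, hiC⟩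
  rw [hL, Finset.mem_compl] at h4
  exact h4 (h1 i hi)

/-! ### Linear independence -/

theorem linInd (Γ : Fin n → Fin n → Prop) (A : Fin n → R) (hA : ∀ i, A i ≠ 0) :
    LinearIndependent R (fun z : clusterMonomials Γ A => (z : Fr n R)) := by
  rw [linearIndependent_iff']
  intro s g hg
  choose a S hS hd hz using fun z : clusterMonomials Γ A => data_of z.2
  obtain ⟨M, hM⟩ : ∃ M : Multiset (Fin n), ∀ z ∈ s, bd (S z) ≤ M :=
    ⟨∑ z ∈ s, bd (S z), fun z hz =>
      Finset.single_le_sum (f := fun z => bd (S z)) (fun _ _ => Multiset.zero_le _) hz⟩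
  obtain ⟨e, he⟩ : ∃ e : clusterMonomials Γ A → Multiset (Fin n),
      ∀ z, e z = a z + (M - bd (S z)) := ⟨_, fun z => rfl⟩
  obtain ⟨Q, hQ⟩ : ∃ Q : clusterMonomials Γ A → MvPolynomial (Fin n) R,
      ∀ z, Q z = ((S z).map (num Γ A)).prod := ⟨_, fun z => rfl⟩
  have hmul : ∀ z ∈ s, (z : Fr n R) * algebraMap (MvPolynomial (Fin n) R) (Fr n R) (mp R M) =
      algebraMap (MvPolynomial (Fin n) R) (Fr n R) (mp R (e z) * Q z) := by
    intro z hzs
    have h1 : M = bd (S z) + (M - bd (S z)) := (add_tsub_cancel_of_le (hM z hzs)).symm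
    rw [h1, mp_add, map_mul, hz z, he z, mp_add, hQ z, map_mul, map_mul, ← prod_yv]
    simp only [map_mp]
    ring
  have hsum : ∑ z ∈ s, MvPolynomial.C (g z) * (mp R (e z) * Q z) = 0 := by
    apply IsFractionRing.injective (MvPolynomial (Fin n) R) (Fr n R)
    rw [map_zero, map_sum]
    have h1 : ∀ z ∈ s, algebraMap (MvPolynomial (Fin n) R) (Fr n R)
        (MvPolynomial.C (g z) * (mp R (e z) * Q z)) =
        (g z • (z : Fr n R)) * algebraMap (MvPolynomial (Fin n) R) (Fr n R) (mp R M) := by
      intro z hzs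
      rw [map_mul, ← hmul z hzs, Algebra.smul_def,
        IsScalarTower.algebraMap_apply R (MvPolynomial (Fin n) R) (Fr n R),
        MvPolynomial.algebraMap_eq, mul_assoc]
    rw [Finset.sum_congr rfl h1, ← Finset.sum_mul, hg, zero_mul]
  have hinj : ∀ z ∈ s, ∀ z' ∈ s, e z = e z' → z = z' := by
    intro z hzs z' hzs' hee
    have hcnt : ∀ i, (a z).count i = (a z').count i ∧ vct (S z) i = vct (S z') i := by
      intro i
      have h1 := congrArg (Multiset.count i) hee
      rw [he, he, Multiset.count_add, Multiset.count_add, Multiset.count_sub, Multiset.count_sub,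
        count_bd, count_bd] at h1
      have h2 := Multiset.le_iff_count.1 (hM z hzs) i
      have h3 := Multiset.le_iff_count.1 (hM z' hzs') i
      rw [count_bd] at h2 h3
      have h4 : ∀ w, (a w).count i = 0 ∨ vct (S w) i = 0 := by
        intro w
        by_cases hi : i ∈ a w
        · right
          unfold vct
          rw [Multiset.countP_eq_zero]
          intro C hC
          exact hd w i hi C hC
        · left
          exact Multiset.count_eq_zero_of_notMem hi
      have h5 := h4 z
      have h6 := h4 z'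
      omega
    have h7 : a z = a z' := Multiset.ext.2 fun i => (hcnt i).1
    have h8 : S z = S z' := multiset_unique _ (S z) (S z') rfl (hS z) (hS z') fun i => (hcnt i).2
    apply Subtype.ext
    rw [hz z, hz z', h7, h8]
  by_contra hcon
  push Not at hcon
  obtain ⟨z1, hz1, hg1⟩ := hcon
  obtain ⟨z0, hz0, hmin⟩ := Finset.exists_min_image (s.filter fun z => g z ≠ 0)
    (fun z => Multiset.card (e z)) ⟨z1, Finset.mem_filter.2 ⟨hz1, hg1⟩⟩
  obtain ⟨hz0s, hg0⟩ := Finset.mem_filter.1 hz0
  have hco : ∀ z, MvPolynomial.coeff (Multiset.toFinsupp (e z0))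
      (MvPolynomial.C (g z) * (mp R (e z) * Q z)) =
      g z * (if Multiset.toFinsupp (e z) ≤ Multiset.toFinsupp (e z0) then
        MvPolynomial.coeff (Multiset.toFinsupp (e z0) - Multiset.toFinsupp (e z)) (Q z) else 0) := by
    intro z
    rw [MvPolynomial.coeff_C_mul, mp_eq, MvPolynomial.coeff_monomial_mul']
    simp only [one_mul]
  have hfin := congrArg (MvPolynomial.coeff (Multiset.toFinsupp (e z0))) hsum
  rw [MvPolynomial.coeff_sum, MvPolynomial.coeff_zero, Finset.sum_eq_single z0] at hfin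
  · rw [hco z0, if_pos le_rfl, tsub_self] at hfin
    have h1 : MvPolynomial.coeff 0 (Q z0) ≠ 0 := by
      rw [← MvPolynomial.constantCoeff_eq, hQ z0, map_multiset_prod, Multiset.map_map]
      apply Multiset.prod_ne_zero
      intro h0
      obtain ⟨C, hC, h2⟩ := Multiset.mem_map.1 h0
      rw [Function.comp_apply, constantCoeff_num] at h2
      exact (Finset.prod_ne_zero_iff.2 fun i _ => hA i) h2
    exact (mul_ne_zero hg0 h1) hfin
  · intro z hzs hne
    rw [hco z]
    by_cases hgz : g z = 0
    · rw [hgz, zero_mul]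
    · rw [if_neg, mul_zero]
      intro hle
      apply hne
      apply hinj z hzs z0 hz0s
      apply Multiset.eq_of_le_of_card_le
      · rw [Multiset.le_iff_count]
        intro i
        have := hle i
        rwa [Multiset.toFinsupp_apply, Multiset.toFinsupp_apply] at this
      · exact hmin z (Finset.mem_filter.2 ⟨hzs, hgz⟩)
  · intro h
    exact absurd hz0s h

/-! ### Spanning -/

theorem mem_span (Γ : Fin n → Fin n → Prop) (hΓ : ∀ i, ¬ Γ i i) (A : Fin n → R)
    (z : Fr n R) (hz : z ∈ Submonoid.closure (clusterVars Γ A)) :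
    z ∈ Submodule.span R (clusterMonomials Γ A) := by
  have hform : ∃ (a : Multiset (Fin n)) (S : Multiset (Finset (Fin n))),
      z = mX (xv R) a * mon (yy Γ A) Γ S := by
    induction hz using Submonoid.closure_induction with
    | mem x hx =>
      rcases hx with ⟨i, rfl⟩ | ⟨I, _, rfl⟩
      · exact ⟨{i}, 0, by simp [mX, mon]⟩
      · refine ⟨0, {I}, ?_⟩
        rw [yv_eq Γ hΓ A I]
        simp [mX, mon]
    | one => exact ⟨0, 0, by simp [mX, mon]⟩
    | mul x w _ _ hx hw =>
      obtain ⟨a, S, rfl⟩ := hx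
      obtain ⟨a', S', rfl⟩ := hw
      refine ⟨a + a', S + S', ?_⟩
      simp only [mX, mon, Multiset.map_add, Multiset.prod_add]
      ring
  obtain ⟨a, S, rfl⟩ := hform
  have := all_mem (yy Γ A) (xv R) (fun i => algebraMap R (Fr n R) (A i)) Γ hΓ
    (fun i => yy_mul Γ A i) (Submodule.span R (clusterMonomials Γ A)).toAddSubmonoid
    (fun t w hw => by
      rw [← Algebra.smul_def]
      exact Submodule.smul_mem _ _ hw) ?_ _ a S rfl
  · exact this
  · intro a S hS hd
    apply Submodule.subset_span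
    obtain ⟨τ, hτ, hsub, hsupp⟩ := exists_maximal _ (nested_of_chain (Γ := Γ) S hS)
    refine ⟨_, ⟨(τ.biUnion id)ᶜ, τ, hτ, by rw [compl_compl], rfl⟩, ?_⟩
    apply Submonoid.mul_mem
    · apply Submonoid.multiset_prod_mem
      intro x hx
      obtain ⟨i, hi, rfl⟩ := Multiset.mem_map.1 hx
      apply Submonoid.subset_closure
      left
      refine ⟨i, ?_, rfl⟩
      rw [Finset.mem_compl, hsupp]
      intro hmem
      obtain ⟨C, hC, hiC⟩ := Finset.mem_biUnion.1 hmem
      obtain ⟨U, hU, hUC⟩ := (Finset.mem_filter.1 hC).2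
      exact hd i hi U hU (hUC.1 hiC)
    · apply Submonoid.multiset_prod_mem
      intro x hx
      obtain ⟨U, hU, rfl⟩ := Multiset.mem_map.1 hx
      rw [D_eq_prod (Γ := Γ) (yy Γ A) U]
      apply Submonoid.prod_mem
      intro C hC
      apply Submonoid.subset_closure
      right
      refine ⟨C, hsub ?_, (yv_eq Γ hΓ A C).symm⟩
      rw [Finset.mem_filter] at hC ⊢
      exact ⟨Finset.mem_univ _, U, hU, hC.2⟩

theorem span_eq (Γ : Fin n → Fin n → Prop) (hΓ : ∀ i, ¬ Γ i i) (A : Fin n → R) :
    Submodule.span R (clusterMonomials Γ A) = Subalgebra.toSubmodule (lpAlgebra Γ A) := by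
  apply le_antisymm
  · rw [Submodule.span_le]
    rintro z ⟨c, ⟨L, σ, hσ, hL, rfl⟩, hz⟩
    have h1 : {z | (∃ i ∈ L, z = xv R i) ∨ ∃ S ∈ σ, z = yv Γ A S} ⊆ clusterVars Γ A := by
      rintro w (⟨i, _, rfl⟩ | ⟨C, hC, rfl⟩)
      · exact Or.inl ⟨i, rfl⟩
      · exact Or.inr ⟨C, hσ.1.1 C hC, rfl⟩
    have h2 : Submonoid.closure {z | (∃ i ∈ L, z = xv R i) ∨ ∃ S ∈ σ, z = yv Γ A S} ≤
        (lpAlgebra Γ A).toSubmonoid := by
      rw [Submonoid.closure_le]
      exact h1.trans Algebra.subset_adjoin
    exact h2 hz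
  · rw [lpAlgebra, Algebra.adjoin_eq_span, Submodule.span_le]
    intro z hz
    exact mem_span Γ hΓ A z hz

end

end Run7.h215.LP
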